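import Pool.Agent.Y576.TD.Gen

set_option autoImplicit false

/-!
Upward closed sets of reals: generic behaviour, and almost disjoint families inside comeager
upward closed sets.
-/

namespace Pool.Agent.Helper50K9.TD

open Set Filter Topology

/-- The set `V` is closed under adding elements. -/
def Up (V : Set (ℕ → Bool)) : Prop :=
  ∀ a b, a ∈ V → (∀ n, a n = true → b n = true) → b ∈ V

/-- The set `V` does not depend on finitely many coordinates. -/
def Tail (V : Set (ℕ → Bool)) : Prop :=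
  ∀ a b, a ∈ V → (∀ᶠ n in atTop, a n = b n) → b ∈ V

theorem exists_partition {V : Set (ℕ → Bool)} (hV : Up V)
    (hres : ∀ᶠ x in residual (ℕ → Bool), x ∈ V) :
    ∃ π : ℕ → ℕ, StrictMono π ∧ ∀ K : Set ℕ, K.Infinite → ∀ x : ℕ → Bool,
      (∀ k ∈ K, ∀ n, π k ≤ n → n < π (k + 1) → x n = true) → x ∈ V := by
  classical
  obtain ⟨S, hSo, hSd, hSc, hS⟩ := mem_residual_iff.1 hres
  obtain ⟨f, hfo, hfd, hfI⟩ : ∃ f : ℕ → Set (ℕ → Bool), (∀ n, IsOpen (f n)) ∧
      (∀ n, Dense (f n)) ∧ ⋂ n, f n ⊆ V := by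
    rcases S.eq_empty_or_nonempty with rfl | hne
    · refine ⟨fun _ => Set.univ, fun _ => isOpen_univ, fun _ => dense_univ, ?_⟩
      simpa using hS
    · obtain ⟨f, hf⟩ := hSc.exists_eq_range hne
      refine ⟨f, fun n => hSo _ (hf ▸ Set.mem_range_self n),
        fun n => hSd _ (hf ▸ Set.mem_range_self n), ?_⟩
      intro x hx
      apply hS
      rw [Set.mem_sInter]
      intro t ht
      rw [hf] at ht
      obtain ⟨n, rfl⟩ := ht
      exact Set.mem_iInter.1 hx n
  let g : ℕ → Set (ℕ → Bool) := fun k => ⋂ j ∈ Finset.range (k + 1), f j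
  have hgo : ∀ k, IsOpen (g k) := fun k => isOpen_biInter_finset fun j _ => hfo j
  have hgd : ∀ k, Dense (g k) := by
    intro k
    have hmem : g k ∈ residual (ℕ → Bool) := by
      have : (⋂ j ∈ Finset.range (k + 1), f j) ∈ residual (ℕ → Bool) := by
        rw [Filter.biInter_finset_mem]
        intro j _
        exact residual_of_dense_open (hfo j) (hfd j)
      exact this
    exact dense_of_mem_residual hmem
  choose! nxt hnxt w hw using fun k m => Pool.Agent.TH774.KP.pattern_step' (hgo k) (hgd k) m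
  let π : ℕ → ℕ := fun k => Nat.rec (motive := fun _ => ℕ) 0 (fun k m => nxt k m) k
  have hπs : ∀ k, π (k + 1) = nxt k (π k) := fun k => rfl
  have hπm : StrictMono π := strictMono_nat_of_lt_succ fun k => by rw [hπs]; exact hnxt k (π k)
  refine ⟨π, hπm, fun K hK y hy => ?_⟩
  let Px : ℕ → Prop := fun n => ∃ k ∈ K, π k ≤ n ∧ n < π (k + 1) ∧ w k (π k) n = true
  let x : ℕ → Bool := fun n => decide (Px n)
  have hx : ∀ n, x n = true ↔ Px n := fun n => decide_eq_true_iff
  have hx2 : x ∈ ⋂ n, f n := by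
    rw [Set.mem_iInter]
    intro j
    obtain ⟨k, hk, hjk⟩ := hK.exists_gt j
    have hxg : x ∈ g k := by
      apply hw k (π k) x
      intro n hn1 hn2
      rw [← hπs] at hn2
      by_cases hwn : w k (π k) n = true
      · rw [hwn, hx]
        exact ⟨k, hk, hn1, hn2, hwn⟩
      · have h5 : x n = false := by
          rw [← Bool.not_eq_true, hx]
          rintro ⟨k', hk', h1, h2, h3⟩
          have : k' = k := by
            rcases lt_trichotomy k' k with h | h | h
            · exact absurd (lt_of_lt_of_le h2 (hπm.monotone (Nat.succ_le_of_lt h))) (not_lt.2 hn1)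
            · exact h
            · exact absurd (lt_of_lt_of_le hn2 (hπm.monotone (Nat.succ_le_of_lt h))) (not_lt.2 h1)
          subst this
          exact hwn h3
        rw [h5]
        simpa using hwn
    exact Set.mem_iInter₂.1 hxg j (Finset.mem_range.2 (by omega))
  refine hV x y (hfI hx2) fun n hn => ?_
  obtain ⟨k, hk, h1, h2, -⟩ := (hx n).1 hn
  exact hy k hk n h1 h2

/-- Every comeager set contains a real and its complement. -/
theorem exists_compl {W : Set (ℕ → Bool)} (hW : ∀ᶠ x in residual (ℕ → Bool), x ∈ W) :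
    ∃ x, x ∈ W ∧ (fun n => !(x n)) ∈ W := by
  have h2 : ∀ᶠ x in residual (ℕ → Bool), Pool.Agent.TH774.KP.flipH 0 x ∈ W :=
    (tendsto_residual_of_isOpenMap (Pool.Agent.TH774.KP.flipH 0).continuous
      (Pool.Agent.TH774.KP.flipH 0).isOpenMap).eventually hW
  obtain ⟨x, hx1, hx2⟩ := (dense_of_mem_residual (hW.and h2)).nonempty
  refine ⟨x, hx1, ?_⟩
  have h3 : Pool.Agent.TH774.KP.flipH 0 x = fun n => !(x n) := by
    funext n
    exact Pool.Agent.TH774.KP.flipH_apply_ge x (by omega)
  rwa [h3] at hx2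

/-- Every comeager set contains a real which contains infinitely many of the given blocks. -/
theorem exists_blocks {W : Set (ℕ → Bool)} (hW : ∀ᶠ x in residual (ℕ → Bool), x ∈ W)
    {π : ℕ → ℕ} (hπ : StrictMono π) :
    ∃ x ∈ W, {k | ∀ n, π k ≤ n → n < π (k + 1) → x n = true}.Infinite := by
  have h1 : ∀ᶠ x in residual (ℕ → Bool), ∀ j, ∃ k ≥ j, ∀ n, π k ≤ n → n < π (k + 1) →
      x n = true := by
    rw [eventually_countable_forall]
    intro j
    refine residual_of_dense_open ?_ ?_
    · have h2 : {x : ℕ → Bool | ∃ k ≥ j, ∀ n, π k ≤ n → n < π (k + 1) → x n = true} =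
          ⋃ k ≥ j, ⋂ n ∈ Finset.Ico (π k) (π (k + 1)), {x | x n = true} := by
        ext x
        simp
      rw [h2]
      refine isOpen_biUnion fun k _ => isOpen_biInter_finset fun n _ => ?_
      have h3 : IsOpen ((fun x : ℕ → Bool => x n) ⁻¹' {true}) :=
        (isOpen_discrete _).preimage (continuous_apply n)
      exact h3
    · rw [dense_iff_inter_open]
      rintro U hU ⟨x, hx⟩
      obtain ⟨k, hk⟩ := Pool.Agent.TH774.KP.exists_cylinder_subset hU hx
      refine ⟨fun n => if n < k then x n else true, hk _ fun i hi => by simp [hi],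
        max j k, le_max_left _ _, fun n hn _ => ?_⟩
      have h3 := hπ.id_le (max j k)
      simp only [id] at h3
      have h4 : ¬ n < k := by
        have := le_max_right j k
        omega
      simp [h4]
  obtain ⟨x, hx1, hx2⟩ := (dense_of_mem_residual (hW.and h1)).nonempty
  refine ⟨x, hx1, ?_⟩
  rw [Set.infinite_iff_exists_gt]
  intro j
  obtain ⟨k, hk, h⟩ := hx2 (j + 1)
  exact ⟨k, h, by omega⟩

/-- The code of the initial segment of length `i` of `s`. -/
def br (s : ℕ → Bool) (i : ℕ) : ℕ := Encodable.encode (List.ofFn fun j : Fin i => s j)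

theorem br_eq {s t : ℕ → Bool} {i j : ℕ} (h : br s i = br t j) :
    i = j ∧ ∀ n < i, s n = t n := by
  have h1 := Encodable.encode_injective h
  have h2 : i = j := by
    have := congrArg List.length h1
    simpa using this
  subst h2
  refine ⟨rfl, fun n hn => ?_⟩
  have h3 := List.ofFn_injective h1
  exact congrFun h3 ⟨n, hn⟩

theorem br_sep {s t : ℕ → Bool} (h : s ≠ t) : ∃ M, ∀ i j, br s i = br t j → i ≤ M := by
  obtain ⟨M, hM⟩ := Function.ne_iff.1 h
  refine ⟨M, fun i j hij => ?_⟩
  by_contra hc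
  push Not at hc
  exact hM ((br_eq hij).2 M hc)

/-- Almost disjoint families of unions of blocks; every member is divided into infinitely many
infinite pieces. -/
theorem exists_family {π : ℕ → ℕ} (hπ : StrictMono π) {K : Set ℕ} (hK : K.Infinite) :
    ∃ A : (ℕ → Bool) → ℕ → Set ℕ,
      (∀ s j, ∃ L ⊆ K, L.Infinite ∧ A s j = {n | ∃ k ∈ L, π k ≤ n ∧ n < π (k + 1)}) ∧
      (∀ s i j, i ≠ j → Disjoint (A s i) (A s j)) ∧
      ∀ s t, s ≠ t → ∃ M, ∀ n ≥ M, ∀ i j, n ∈ A s i → n ∉ A t j := by
  classical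
  let e : ℕ → ℕ := Nat.nth (· ∈ K)
  have he : StrictMono e := Nat.nth_strictMono hK
  have heK : ∀ n, e n ∈ K := fun n => Nat.nth_mem_of_infinite hK n
  have hblk : ∀ {k l n : ℕ}, π k ≤ n → n < π (k + 1) → π l ≤ n → n < π (l + 1) → k = l := by
    intro k l n h1 h2 h3 h4
    rcases lt_trichotomy k l with h | h | h
    · exact absurd (lt_of_lt_of_le h2 (hπ.monotone (Nat.succ_le_of_lt h))) (not_lt.2 h3)
    · exact h
    · exact absurd (lt_of_lt_of_le h4 (hπ.monotone (Nat.succ_le_of_lt h))) (not_lt.2 h1)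
  let L : (ℕ → Bool) → ℕ → Set ℕ := fun s j => (fun i => e (br s i)) '' {i | (Nat.unpair i).1 = j}
  refine ⟨fun s j => {n | ∃ k ∈ L s j, π k ≤ n ∧ n < π (k + 1)}, fun s j => ⟨L s j, ?_, ?_, rfl⟩,
    fun s i j hij => ?_, fun s t hst => ?_⟩
  · rintro _ ⟨i, -, rfl⟩
    exact heK _
  · have h1 : {i : ℕ | (Nat.unpair i).1 = j}.Infinite := by
      have h2 : Set.range (fun m => Nat.pair j m) ⊆ {i : ℕ | (Nat.unpair i).1 = j} := by
        rintro _ ⟨m, rfl⟩
        simp
      refine Set.Infinite.mono h2 (Set.infinite_range_of_injective fun a b hab => ?_)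
      simpa using hab
    refine h1.image ?_
    intro a _ b _ hab
    exact (br_eq (he.injective hab)).1
  · rw [Set.disjoint_left]
    rintro n ⟨k, ⟨a, ha, rfl⟩, h1, h2⟩ ⟨l, ⟨b, hb, rfl⟩, h3, h4⟩
    have h5 := he.injective (hblk h1 h2 h3 h4)
    have h6 := (br_eq h5).1
    subst h6
    exact hij (ha.symm.trans hb)
  · obtain ⟨M, hM⟩ := br_sep hst
    refine ⟨(Finset.range (M + 1)).sup (fun i => π (e (br s i) + 1)), ?_⟩
    rintro n hn i j ⟨k, ⟨a, ha, rfl⟩, h1, h2⟩ ⟨l, ⟨b, hb, rfl⟩, h3, h4⟩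
    have h5 := he.injective (hblk h1 h2 h3 h4)
    have h6 := hM a b h5
    have h7 := Finset.le_sup (f := fun i => π (e (br s i) + 1)) (Finset.mem_range.2
      (Nat.lt_succ_of_le h6))
    have h8 : π (e (br s a) + 1) ≤ n := h7.trans hn
    exact absurd h2 (not_lt.2 h8)

/-- Two members of the family have the same colour. -/
theorem exists_ne_eq {ι : Type*} [Countable ι] (c : (ℕ → Bool) → ι) :
    ∃ s t, s ≠ t ∧ c s = c t := by
  have h : ¬ Function.Injective c := fun h => by
    have := h.countable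
    obtain ⟨f, hf⟩ := exists_surjective_nat (ℕ → Bool)
    obtain ⟨n, hn⟩ := hf fun n => !(f n n)
    have h2 := congrFun hn n
    simp at h2
  rw [Function.Injective] at h
  push Not at h
  obtain ⟨s, t, h1, h2⟩ := h
  exact ⟨s, t, h2, h1⟩

end Pool.Agent.Helper50K9.TD
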