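import Pool.Agent.Helper50K9.TD.Grp

set_option autoImplicit false

/-!
From tails of single elements to continuity on infinite products.
-/

namespace Pool.Agent.Helper50K9.TD

open Set Filter Topology

variable {G : ℕ → Type*} [∀ n, Group (G n)] {H : Type*} [Group H] [TopologicalSpace H]

/-- the part of `g` from `N` on -/
def tl (N : ℕ) (g : ∀ n, G n) : ∀ n, G n := fun n => if n < N then 1 else g n

/-- the part of `g` below `N` -/
def hd (N : ℕ) (g : ∀ n, G n) : ∀ n, G n := fun n => if n < N then g n else 1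

theorem tl_mul (N : ℕ) (g h : ∀ n, G n) : tl N (g * h) = tl N g * tl N h := by
  funext n
  by_cases hn : n < N <;> simp [tl, hn]

theorem tl_inv (N : ℕ) (g : ∀ n, G n) : tl N g⁻¹ = (tl N g)⁻¹ := by
  funext n
  by_cases hn : n < N <;> simp [tl, hn]

theorem tl_one (N : ℕ) : tl N (1 : ∀ n, G n) = 1 := by
  funext n
  by_cases hn : n < N <;> simp [tl, hn]

theorem hd_mul_tl (N : ℕ) (g : ∀ n, G n) : hd N g * tl N g = g := by
  funext n
  by_cases hn : n < N <;> simp [tl, hd, hn]

theorem tl_of_le {N : ℕ} {g : ∀ n, G n} (hg : ∀ n < N, g n = 1) : tl N g = g := by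
  funext n
  by_cases hn : n < N
  · simp [tl, hn, hg n hn]
  · simp [tl, hn]

variable [IsTopologicalGroup H] {φ : (∀ n, G n) →* H}

/-- Tails of single elements decide uniform smallness of tails. -/
theorem uniform_tails (h : ∀ g, Tendsto (fun N => φ (tl N g)) atTop (𝓝 1)) {U : Set H}
    (hU : U ∈ 𝓝 (1 : H)) : ∃ N, ∀ g : ∀ n, G n, (∀ n < N, g n = 1) → φ g ∈ U := by
  classical
  by_contra hcon
  push Not at hcon
  choose g hg hgU using hcon
  obtain ⟨W, hW, hWU⟩ := exists_nhds_one_split hU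
  have h1 : ∀ N, ∃ M > N, φ (hd M (g N)) ∉ W := by
    intro N
    obtain ⟨M, hM, hM'⟩ := ((h (g N)).eventually hW |>.and (eventually_gt_atTop N)).exists
    refine ⟨M, hM', fun hc => hgU N ?_⟩
    have h2 := hWU _ hc _ hM
    rwa [← map_mul, hd_mul_tl] at h2
  choose M hM hMW using h1
  let a : ℕ → ℕ := fun i => Nat.rec (motive := fun _ => ℕ) 0 (fun _ m => M m) i
  have ha1 : ∀ i, a (i + 1) = M (a i) := fun i => rfl
  have ha : StrictMono a := strictMono_nat_of_lt_succ fun i => by rw [ha1]; exact hM (a i)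
  have hu : ∀ {i j n : ℕ}, a i ≤ n → n < a (i + 1) → a j ≤ n → n < a (j + 1) → i = j := by
    intro k l n h1 h2 h3 h4
    rcases lt_trichotomy k l with h | h | h
    · exact absurd (lt_of_lt_of_le h2 (ha.monotone (Nat.succ_le_of_lt h))) (not_lt.2 h3)
    · exact h
    · exact absurd (lt_of_lt_of_le h4 (ha.monotone (Nat.succ_le_of_lt h))) (not_lt.2 h1)
  let b : ∀ n, G n := fun n =>
    if hn : ∃ i, a i ≤ n ∧ n < a (i + 1) then g (a hn.choose) n else 1
  have hb : ∀ i n, a i ≤ n → n < a (i + 1) → b n = g (a i) n := by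
    intro i n h1 h2
    have hex : ∃ i, a i ≤ n ∧ n < a (i + 1) := ⟨i, h1, h2⟩
    have h3 : hex.choose = i := hu hex.choose_spec.1 hex.choose_spec.2 h1 h2
    have h4 : b n = g (a hex.choose) n := by
      simp only [b]
      rw [dif_pos hex]
    rw [h4, h3]
  have h2 : ∀ i, hd (a (i + 1)) (g (a i)) = tl (a i) b * (tl (a (i + 1)) b)⁻¹ := by
    intro i
    have hi := ha (Nat.lt_succ_self i)
    funext n
    by_cases h3 : n < a i
    · have h4 : n < a (i + 1) := h3.trans hi
      simp [hd, tl, h3, h4, hg (a i) n h3]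
    · by_cases h4 : n < a (i + 1)
      · simp [hd, tl, h3, h4, hb i n (not_lt.1 h3) h4]
      · simp [hd, tl, h3, h4]
  have h3 : Tendsto (fun i => φ (tl (a i) b) * (φ (tl (a (i + 1)) b))⁻¹) atTop (𝓝 1) := by
    have h4 : Tendsto (fun i => φ (tl (a i) b)) atTop (𝓝 1) := (h b).comp ha.tendsto_atTop
    have h5 : Tendsto (fun i => φ (tl (a (i + 1)) b)) atTop (𝓝 1) :=
      h4.comp (tendsto_add_atTop_nat 1)
    simpa using h4.mul h5.inv
  obtain ⟨i, hi⟩ := (h3.eventually hW).exists
  apply hMW (a i)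
  rw [← ha1, h2, map_mul, map_inv]
  exact hi

/-- On a perfect product, smallness of commutators gives smallness of tails. -/
theorem tails_of_commutators
    (h : ∀ U ∈ 𝓝 (1 : H), ∃ N, ∀ g h : ∀ n, G n, (∀ n < N, g n = 1 ∧ h n = 1) →
      φ (h⁻¹ * g⁻¹ * h * g) ∈ U) (g : ∀ n, G n) (hg : g ∈ commutator (∀ n, G n)) :
    Tendsto (fun N => φ (tl N g)) atTop (𝓝 1) := by
  let T : Subgroup (∀ n, G n) :=
    { carrier := {g | Tendsto (fun N => φ (tl N g)) atTop (𝓝 1)}
      mul_mem' := by
        intro a b ha hb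
        have h1 : Tendsto (fun N => φ (tl N a) * φ (tl N b)) atTop (𝓝 (1 * 1)) :=
          Tendsto.mul ha hb
        rw [one_mul] at h1
        refine h1.congr fun N => ?_
        rw [tl_mul, map_mul]
      one_mem' := by
        change Tendsto (fun N => φ (tl N 1)) atTop (𝓝 1)
        simp only [tl_one, map_one]
        exact tendsto_const_nhds
      inv_mem' := by
        intro a ha
        have h1 : Tendsto (fun N => (φ (tl N a))⁻¹) atTop (𝓝 (1⁻¹)) := Tendsto.inv ha
        rw [inv_one] at h1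
        refine h1.congr fun N => ?_
        rw [tl_inv, map_inv] }
  have h1 : commutator (∀ n, G n) ≤ T := by
    rw [commutator_def, Subgroup.commutator_le]
    intro a _ b _
    rw [commutatorElement_def]
    change Tendsto (fun N => φ (tl N (a * b * a⁻¹ * b⁻¹))) atTop (𝓝 1)
    intro U hU
    obtain ⟨N, hN⟩ := h U hU
    refine mem_map.2 (mem_atTop_sets.2 ⟨N, fun M hM => ?_⟩)
    have h2 := hN (tl M b⁻¹) (tl M a⁻¹) fun n hn => by
      have : n < M := lt_of_lt_of_le hn hM
      simp [tl, this]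
    have h3 : tl M (a * b * a⁻¹ * b⁻¹) =
        (tl M a⁻¹)⁻¹ * (tl M b⁻¹)⁻¹ * tl M a⁻¹ * tl M b⁻¹ := by
      rw [← tl_inv, ← tl_inv, ← tl_mul, ← tl_mul, ← tl_mul, inv_inv, inv_inv]
    change φ (tl M (a * b * a⁻¹ * b⁻¹)) ∈ U
    rw [h3]
    exact h2
  exact h1 hg

omit [IsTopologicalGroup H] in
theorem hd_succ (N : ℕ) (g : ∀ n, G n) : hd (N + 1) g = hd N g * Pi.mulSingle N (g N) := by
  funext n
  by_cases hn : n < N
  · have h1 : n < N + 1 := by omega
    have h2 : n ≠ N := by omega
    simp [hd, hn, h1, h2]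
  · by_cases hn' : n = N
    · subst hn'
      simp [hd]
    · have h1 : ¬ n < N + 1 := by omega
      simp [hd, hn, h1, hn']

/-- Continuity for the product topology. -/
theorem continuous_of_tails [∀ n, TopologicalSpace (G n)] [∀ n, IsTopologicalGroup (G n)]
    (h : ∀ U ∈ 𝓝 (1 : H), ∃ N, ∀ g : ∀ n, G n, (∀ n < N, g n = 1) → φ g ∈ U)
    (hf : ∀ n, Continuous fun a : G n => φ (Pi.mulSingle n a)) : Continuous φ := by
  have h1 : ∀ N, Continuous fun g : ∀ n, G n => φ (hd N g) := by
    intro N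
    induction N with
    | zero =>
      have : (fun g : ∀ n, G n => φ (hd 0 g)) = fun _ => 1 := by
        funext g
        have h2 : hd 0 g = 1 := by
          funext n
          simp [hd]
        rw [h2, map_one]
      rw [this]
      exact continuous_const
    | succ N ih =>
      have : (fun g : ∀ n, G n => φ (hd (N + 1) g)) =
          fun g => φ (hd N g) * φ (Pi.mulSingle N (g N)) := by
        funext g
        rw [hd_succ, map_mul]
      rw [this]
      exact ih.mul ((hf N).comp (continuous_apply N))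
  refine continuous_of_continuousAt_one φ ?_
  rw [ContinuousAt, map_one]
  intro U hU
  obtain ⟨W, hW, hWU⟩ := exists_nhds_one_split hU
  obtain ⟨N, hN⟩ := h W hW
  change ∀ᶠ g in 𝓝 (1 : ∀ n, G n), φ g ∈ U
  have h2 : ∀ᶠ g in 𝓝 (1 : ∀ n, G n), φ (hd N g) ∈ W := by
    have h3 := (h1 N).tendsto 1
    have h4 : hd N (1 : ∀ n, G n) = 1 := by
      funext n
      by_cases hn : n < N <;> simp [hd, hn]
    rw [h4, map_one] at h3
    exact h3 hW
  filter_upwards [h2] with g hg
  have h3 := hWU _ hg _ (hN (tl N g) fun n hn => by simp [tl, hn])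
  rwa [← map_mul, hd_mul_tl] at h3

end Pool.Agent.Helper50K9.TD
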