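import Pool.Agent.Helper50K9.TD.Cat

set_option autoImplicit false

/-!
Pairs of elements of infinite products with small supports: the combinatorial core of the
automatic continuity theorems.
-/

namespace Pool.Agent.Helper50K9.TD

open Set Filter Topology

section defs

variable {X Y : ℕ → Type*}

/-- All `x` such that for every `m` the relation `B` holds between some `g` and `h` whose supports
are contained in `{n ≥ m | x n = 1}`; the support is relative to the base points `e`, `e'`. -/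
def Bad (e : ∀ n, X n) (e' : ∀ n, Y n) (B : (∀ n, X n) → (∀ n, Y n) → Prop) : Set (ℕ → Bool) :=
  {x | ∀ m, ∃ g h, (∀ n, (n < m ∨ x n = false) → g n = e n ∧ h n = e' n) ∧ B g h}

variable {e : ∀ n, X n} {e' : ∀ n, Y n} {B : (∀ n, X n) → (∀ n, Y n) → Prop}

theorem up_bad : Up (Bad e e' B) := by
  intro a b ha hab m
  obtain ⟨g, h, h1, h2⟩ := ha m
  refine ⟨g, h, fun n hn => h1 n (hn.imp_right fun hb => ?_), h2⟩
  by_contra hc
  rw [Bool.not_eq_false] at hc
  rw [hab n hc] at hb
  cases hb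

theorem tail_bad : Tail (Bad e e' B) := by
  intro a b ha hab m
  obtain ⟨N, hN⟩ := eventually_atTop.1 hab
  obtain ⟨g, h, h1, h2⟩ := ha (max m N)
  refine ⟨g, h, fun n hn => h1 n ?_, h2⟩
  rcases hn with hn | hn
  · exact Or.inl (lt_of_lt_of_le hn (le_max_left _ _))
  · by_cases hn' : n < N
    · exact Or.inl (lt_of_lt_of_le hn' (le_max_right _ _))
    · exact Or.inr ((hN n (not_lt.1 hn')).trans hn)

/-- The glueing argument: two members of an almost disjoint family with the same colour. -/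
theorem no_blocks {π : ℕ → ℕ} (hπ : StrictMono π) {K : Set ℕ} (hK : K.Infinite) {D : Set ℕ}
    (hKD : ∀ k ∈ K, ∀ n, π k ≤ n → n < π (k + 1) → n ∈ D)
    (hloc : ∀ g g' h, (∀ n, h n = e' n ∨ g n = g' n) → B g h → B g' h)
    {ι : Type*} [Countable ι] {c : (∀ n, X n) → ι}
    (hkey : ∀ g g' h, (∀ n ∉ D, g n = e n ∧ g' n = e n ∧ h n = e' n) →
      (∀ n, g' n = e n ∨ h n = e' n) → c g = c g' → ¬ B g h) :
    ∃ L ⊆ K, L.Infinite ∧ ∃ x : ℕ → Bool,
      (∀ n, x n = true ↔ ∃ k ∈ L, π k ≤ n ∧ n < π (k + 1)) ∧ x ∉ Bad e e' B := by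
  classical
  by_contra hcon
  push Not at hcon
  obtain ⟨A, hA, hAd, hAs⟩ := exists_family hπ hK
  have h1 : ∀ s j, ∃ g h, (∀ n, (n < j ∨ n ∉ A s j) → g n = e n ∧ h n = e' n) ∧ B g h := by
    intro s j
    obtain ⟨L, hLK, hL, hAL⟩ := hA s j
    obtain ⟨g, h, h2, h3⟩ := hcon L hLK hL (fun n => decide (n ∈ A s j)) (fun n => by
      rw [decide_eq_true_iff, hAL]
      rfl) j
    refine ⟨g, h, fun n hn => h2 n (hn.imp_right fun h4 => ?_), h3⟩
    simpa using h4
  choose g h hgh hB using h1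
  -- the glued elements
  let G : (ℕ → Bool) → ∀ n, X n := fun s n =>
    if hn : ∃ j, n ∈ A s j then g s hn.choose n else e n
  have hG1 : ∀ s j n, n ∈ A s j → G s n = g s j n := by
    intro s j n hn
    have hex : ∃ j, n ∈ A s j := ⟨j, hn⟩
    have h2 : hex.choose = j := by
      by_contra hc
      exact Set.disjoint_left.1 (hAd s _ _ hc) hex.choose_spec hn
    have h3 : G s n = g s hex.choose n := by
      simp only [G]
      rw [dif_pos hex]
    rw [h3, h2]
  have hG2 : ∀ s n, (∀ j, n ∉ A s j) → G s n = e n := by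
    intro s n hn
    have hex : ¬ ∃ j, n ∈ A s j := by
      push Not
      exact hn
    simp only [G]
    rw [dif_neg hex]
  have hBG : ∀ s j, B (G s) (h s j) := by
    intro s j
    refine hloc _ _ _ (fun n => ?_) (hB s j)
    by_cases hn : n ∈ A s j
    · exact Or.inr (hG1 s j n hn).symm
    · exact Or.inl (hgh s j n (Or.inr hn)).2
  have hAD : ∀ s j n, n ∈ A s j → n ∈ D := by
    intro s j n hn
    obtain ⟨L, hLK, -, hAL⟩ := hA s j
    rw [hAL] at hn
    obtain ⟨k, hk, h2, h3⟩ := hn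
    exact hKD k (hLK hk) n h2 h3
  obtain ⟨s, t, hst, hc⟩ := exists_ne_eq fun s => c (G s)
  obtain ⟨M, hM⟩ := hAs s t hst
  refine hkey (G s) (G t) (h s M) (fun n hn => ⟨?_, ?_, ?_⟩) (fun n => ?_) hc (hBG s M)
  · exact hG2 s n fun j hj => hn (hAD s j n hj)
  · exact hG2 t n fun j hj => hn (hAD t j n hj)
  · exact (hgh s M n (Or.inr fun hj => hn (hAD s M n hj))).2
  · by_cases hn : n < M ∨ n ∉ A s M
    · exact Or.inr (hgh s M n hn).2
    · push Not at hn
      exact Or.inl (hG2 t n fun j hj => hM n hn.1 M j hn.2 hj)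

/-- If the glueing argument applies inside all members of a comeager set, then the set `Bad` is
meager. -/
theorem good_of_key (hBP : BaireMeasurableSet (Bad e e' B)) {W : Set (ℕ → Bool)}
    (hW : ∀ᶠ x in residual (ℕ → Bool), x ∈ W)
    (hloc : ∀ g g' h, (∀ n, h n = e' n ∨ g n = g' n) → B g h → B g' h)
    {ι : Type*} [Countable ι] {c : (∀ n, X n) → ι}
    (hkey : ∀ x ∈ W, ∃ m, ∀ g g' h,
      (∀ n, (n < m ∨ x n = false) → g n = e n ∧ g' n = e n ∧ h n = e' n) →
      (∀ n, g' n = e n ∨ h n = e' n) → c g = c g' → ¬ B g h) :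
    ∀ᶠ x in residual (ℕ → Bool), x ∉ Bad e e' B := by
  rcases Pool.Agent.Y576.TD.zero_one hBP (fun x y hxy hx => tail_bad x y hx hxy) with h1 | h1
  · exfalso
    obtain ⟨π, hπ, hπV⟩ := exists_partition up_bad h1
    obtain ⟨x, hxW, hx⟩ := exists_blocks hW hπ
    obtain ⟨m, hm⟩ := hkey x hxW
    set K : Set ℕ := {k | ∀ n, π k ≤ n → n < π (k + 1) → x n = true} ∩ Set.Ici m with hKdef
    have hK : K.Infinite := by
      rw [Set.infinite_iff_exists_gt]
      intro a
      obtain ⟨k, hk, hk'⟩ := hx.exists_gt (max a m)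
      exact ⟨k, ⟨hk, (le_max_right a m).trans hk'.le⟩, (le_max_left a m).trans_lt hk'⟩
    obtain ⟨L, -, hL, y, hy, hyB⟩ := no_blocks (e := e) (e' := e') (B := B) hπ hK
      (D := {n | ¬ (n < m ∨ x n = false)}) (by
        rintro k ⟨hk, hk'⟩ n h2 h3 h4
        have h5 := hπ.id_le k
        simp only [id] at h5
        have h6 : m ≤ k := hk'
        rcases h4 with h4 | h4
        · omega
        · rw [hk n h2 h3] at h4
          cases h4) hloc (c := c) (fun g g' h h2 h3 h4 => by
        refine hm g g' h (fun n hn => h2 n fun hc => hc hn) h3 h4)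
    exact hyB (hπV L hL y fun k hk n h2 h3 => (hy n).2 ⟨k, hk, h2, h3⟩)
  · exact h1

/-- Splitting the natural numbers into two sets outside of `Bad`. -/
theorem exists_split (hB : ∀ᶠ x in residual (ℕ → Bool), x ∉ Bad e e' B) :
    ∃ (x : ℕ → Bool) (N : ℕ),
      (∀ g h, (∀ n, (n < N ∨ x n = false) → g n = e n ∧ h n = e' n) → ¬ B g h) ∧
      (∀ g h, (∀ n, (n < N ∨ x n = true) → g n = e n ∧ h n = e' n) → ¬ B g h) := by
  obtain ⟨x, h1, h2⟩ := exists_compl (W := (Bad e e' B)ᶜ) hB
  rw [Set.mem_compl_iff] at h1 h2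
  simp only [Bad, Set.mem_setOf_eq] at h1 h2
  push Not at h1 h2
  obtain ⟨m, hm⟩ := h1
  obtain ⟨m', hm'⟩ := h2
  refine ⟨x, max m m', fun g h hs => hm g h fun n hn => hs n ?_,
    fun g h hs => hm' g h fun n hn => hs n ?_⟩
  · exact hn.imp_left fun h => lt_of_lt_of_le h (le_max_left _ _)
  · refine hn.imp (fun h => lt_of_lt_of_le h (le_max_right _ _)) fun h => ?_
    simpa using h

end defs

end Pool.Agent.Helper50K9.TD
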