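import Pool.Agent.Helper50K9.TD.Glue

set_option autoImplicit false

/-!
Homomorphisms from products of countably many groups to topological groups: from the property of
Baire of monotone sets to continuity on commutators.
-/

namespace Pool.Agent.Helper50K9.TD

open Set Filter Topology

/-- Countably many left translates of every neighbourhood of `1` cover `H`. -/
def Narrow (H : Type*) [Group H] [TopologicalSpace H] : Prop :=
  ∀ U ∈ 𝓝 (1 : H), ∃ S : Set H, S.Countable ∧ ∀ h, ∃ s ∈ S, s⁻¹ * h ∈ U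

variable {G : ℕ → Type*} [∀ n, Group (G n)] {H : Type*} [Group H] [TopologicalSpace H]

/-- The bad pairs of elements of the product. -/
def BadPairs (φ : (∀ n, G n) →* H) (P Q : Set H) : Set (ℕ → Bool) :=
  {x | ∀ m, ∃ g h : ∀ n, G n, (∀ n, (n < m ∨ x n = false) → g n = 1 ∧ h n = 1) ∧
    φ h ∈ P ∧ φ (h⁻¹ * g⁻¹ * h * g) ∉ Q}

omit [TopologicalSpace H] in
theorem badPairs_eq (φ : (∀ n, G n) →* H) (P Q : Set H) :
    BadPairs φ P Q = Bad (fun _ => 1) (fun _ => 1)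
      (fun g h : ∀ n, G n => φ h ∈ P ∧ φ (h⁻¹ * g⁻¹ * h * g) ∉ Q) := rfl

theorem colour [IsTopologicalGroup H] (hH : Narrow H) {P : Set H} (hP : P ∈ 𝓝 (1 : H)) :
    ∃ c : H → ℕ, ∀ a b, c a = c b → b⁻¹ * a ∈ P := by
  have h1 : ∀ᶠ p : H × H in 𝓝 1 ×ˢ 𝓝 1, p.1⁻¹ * p.2 ∈ P := by
    have h2 : Tendsto (fun p : H × H => p.1⁻¹ * p.2) (𝓝 1 ×ˢ 𝓝 1) (𝓝 1) := by
      have h3 : Continuous fun p : H × H => p.1⁻¹ * p.2 := by fun_prop
      have h4 := h3.tendsto (1, 1)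
      rw [nhds_prod_eq] at h4
      simpa using h4
    exact h2 hP
  obtain ⟨W, hW, hWP'⟩ := mem_prod_self_iff.1 h1
  have hWP : ∀ a ∈ W, ∀ b ∈ W, a⁻¹ * b ∈ P := fun a ha b hb => hWP' (Set.mk_mem_prod ha hb)
  obtain ⟨S, hS, hSW⟩ := hH W hW
  choose σ hσS hσ using hSW
  have : Countable S := hS
  obtain ⟨f, hf⟩ := exists_injective_nat S
  refine ⟨fun a => f ⟨σ a, hσS a⟩, fun a b hab => ?_⟩
  have h2 : σ a = σ b := congrArg Subtype.val (hf hab)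
  have h3 := hWP _ (hσ b) _ (hσ a)
  rw [h2] at h3
  have h4 : ((σ b)⁻¹ * b)⁻¹ * ((σ b)⁻¹ * a) = b⁻¹ * a := by group
  rwa [h4] at h3

/-- Elements with disjoint supports commute. -/
theorem commute_of_disjoint {g h : ∀ n, G n} (hgh : ∀ n, g n = 1 ∨ h n = 1) : g * h = h * g := by
  funext n
  rcases hgh n with h1 | h1 <;> simp [h1]

theorem comm_word {g g' h : ∀ n, G n} (hgh : ∀ n, g' n = 1 ∨ h n = 1) :
    h⁻¹ * g⁻¹ * h * g = h⁻¹ * (g'⁻¹ * g)⁻¹ * h * (g'⁻¹ * g) := by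
  have h1 := commute_of_disjoint hgh
  have h2 : g' * h * g'⁻¹ = h := by rw [h1]; group
  calc h⁻¹ * g⁻¹ * h * g = h⁻¹ * g⁻¹ * (g' * h * g'⁻¹) * g := by rw [h2]
    _ = h⁻¹ * (g'⁻¹ * g)⁻¹ * h * (g'⁻¹ * g) := by group

omit [TopologicalSpace H] in
theorem loc_word (φ : (∀ n, G n) →* H) (P Q : Set H) (g g' h : ∀ n, G n)
    (hg : ∀ n, h n = 1 ∨ g n = g' n) (hB : φ h ∈ P ∧ φ (h⁻¹ * g⁻¹ * h * g) ∉ Q) :
    φ h ∈ P ∧ φ (h⁻¹ * g'⁻¹ * h * g') ∉ Q := by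
  have h1 : h⁻¹ * g⁻¹ * h * g = h⁻¹ * g'⁻¹ * h * g' := by
    funext n
    rcases hg n with h2 | h2 <;> simp [h2]
  rwa [← h1]

section main

variable [IsTopologicalGroup H] {φ : (∀ n, G n) →* H}

theorem step_one (hH : Narrow H)
    (hBP : ∀ P ∈ 𝓝 (1 : H), ∀ Q ∈ 𝓝 (1 : H), BaireMeasurableSet (BadPairs φ P Q))
    {Q : Set H} (hQ : Q ∈ 𝓝 (1 : H)) :
    ∃ P ∈ 𝓝 (1 : H), ∀ᶠ x in residual (ℕ → Bool), x ∉ BadPairs φ P Q := by
  have h1 : ∀ᶠ p : H × H in 𝓝 1 ×ˢ 𝓝 1, p.1⁻¹ * p.2⁻¹ * p.1 * p.2 ∈ Q := by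
    have h2 : Tendsto (fun p : H × H => p.1⁻¹ * p.2⁻¹ * p.1 * p.2) (𝓝 1 ×ˢ 𝓝 1) (𝓝 1) := by
      have h3 : Continuous fun p : H × H => p.1⁻¹ * p.2⁻¹ * p.1 * p.2 := by fun_prop
      have h4 := h3.tendsto (1, 1)
      rw [nhds_prod_eq] at h4
      simpa using h4
    exact h2 hQ
  obtain ⟨P, hP, hPQ'⟩ := mem_prod_self_iff.1 h1
  have hPQ : ∀ a ∈ P, ∀ b ∈ P, a⁻¹ * b⁻¹ * a * b ∈ Q :=
    fun a ha b hb => hPQ' (Set.mk_mem_prod ha hb)
  obtain ⟨c, hc⟩ := colour hH hP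
  refine ⟨P, hP, ?_⟩
  rw [badPairs_eq]
  refine good_of_key (W := Set.univ) (by rw [← badPairs_eq]; exact hBP P hP Q hQ)
    (Eventually.of_forall fun _ => Set.mem_univ _) (loc_word φ P Q) (c := fun g => c (φ g))
    fun x _ => ⟨0, fun g g' h _ hd hcc => ?_⟩
  rintro ⟨h2, h3⟩
  apply h3
  rw [comm_word hd]
  have h4 := hPQ _ h2 _ (hc _ _ hcc)
  simpa using h4

theorem step_two (hH : Narrow H)
    (hBP : ∀ P ∈ 𝓝 (1 : H), ∀ Q ∈ 𝓝 (1 : H), BaireMeasurableSet (BadPairs φ P Q))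
    {Q : Set H} (hQ : Q ∈ 𝓝 (1 : H)) :
    ∀ᶠ x in residual (ℕ → Bool), x ∉ BadPairs φ Set.univ Q := by
  have hQ' : Q⁻¹ ∈ 𝓝 (1 : H) := by
    have := inv_mem_nhds_one H hQ
    exact this
  obtain ⟨P, hP, hW⟩ := step_one hH hBP hQ'
  obtain ⟨c, hc⟩ := colour hH hP
  rw [badPairs_eq]
  refine good_of_key (W := (BadPairs φ P Q⁻¹)ᶜ)
    (by rw [← badPairs_eq]; exact hBP _ univ_mem Q hQ) hW (loc_word φ Set.univ Q)
    (c := fun g => c (φ g)) fun x hx => ?_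
  rw [Set.mem_compl_iff] at hx
  simp only [BadPairs, Set.mem_ofPred_eq] at hx
  push Not at hx
  obtain ⟨m, hm⟩ := hx
  refine ⟨m, fun g g' h hs hd hcc => ?_⟩
  rintro ⟨-, h3⟩
  apply h3
  have h5 := hm h (g'⁻¹ * g) (fun n hn => ⟨(hs n hn).2.2, by
    have := hs n hn
    simp [this.1, this.2.1]⟩) (by simpa using hc _ _ hcc)
  rw [Set.mem_inv, ← map_inv] at h5
  rw [comm_word hd]
  have h6 : ((g'⁻¹ * g)⁻¹ * h⁻¹ * (g'⁻¹ * g) * h)⁻¹ =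
      h⁻¹ * (g'⁻¹ * g)⁻¹ * h * (g'⁻¹ * g) := by group
  rwa [h6] at h5

/-- Uniform continuity on commutators. -/
theorem small_commutators (hH : Narrow H)
    (hBP : ∀ P ∈ 𝓝 (1 : H), ∀ Q ∈ 𝓝 (1 : H), BaireMeasurableSet (BadPairs φ P Q))
    {U : Set H} (hU : U ∈ 𝓝 (1 : H)) :
    ∃ N, ∀ g h : ∀ n, G n, (∀ n < N, g n = 1 ∧ h n = 1) → φ (h⁻¹ * g⁻¹ * h * g) ∈ U := by
  classical
  obtain ⟨Q, hQ, hQU⟩ := exists_nhds_one_split hU
  have h1 := step_two hH hBP hQ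
  rw [badPairs_eq] at h1
  obtain ⟨x, N, hx1, hx2⟩ := exists_split h1
  refine ⟨N, fun g h hgh => ?_⟩
  let g1 : ∀ n, G n := fun n => if x n = true then g n else 1
  let g2 : ∀ n, G n := fun n => if x n = true then 1 else g n
  let h1 : ∀ n, G n := fun n => if x n = true then h n else 1
  let h2 : ∀ n, G n := fun n => if x n = true then 1 else h n
  have e1 : h⁻¹ * g⁻¹ * h * g = (h1⁻¹ * g1⁻¹ * h1 * g1) * (h2⁻¹ * g2⁻¹ * h2 * g2) := by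
    funext n
    by_cases hn : x n = true <;> simp [g1, g2, h1, h2, hn]
  rw [e1, map_mul]
  refine hQU _ ?_ _ ?_
  · by_contra hc
    refine hx1 g1 h1 (fun n hn => ?_) ⟨Set.mem_univ _, hc⟩
    rcases hn with hn | hn
    · have := hgh n hn
      simp [g1, h1, this]
    · simp [g1, h1, hn]
  · by_contra hc
    refine hx2 g2 h2 (fun n hn => ?_) ⟨Set.mem_univ _, hc⟩
    rcases hn with hn | hn
    · have := hgh n hn
      simp [g2, h2, this]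
    · simp [g2, h2, hn]

end main

end Pool.Agent.Helper50K9.TD
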