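import Pool.Agent.Helper50K9.TD.Cat

set_option autoImplicit false

/-!
Independent families of sets of natural numbers: an independent family whose positive sets have the
property of Baire is not maximal.
-/

namespace Pool.Agent.Helper50K9.TD

open Set Filter Topology

/-- The elements of all members of `F` which are in no member of `E`. -/
def Cell (F E : Finset (Set ℕ)) : Set ℕ := {n | (∀ A ∈ F, n ∈ A) ∧ ∀ A ∈ E, n ∉ A}

/-- All Boolean combinations are infinite. -/
def Independent (I : Set (Set ℕ)) : Prop :=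
  ∀ F E : Finset (Set ℕ), ↑F ⊆ I → ↑E ⊆ I → Disjoint F E → (Cell F E).Infinite

/-- Finite partial functions from `I` to the two point set. -/
structure Cond (I : Set (Set ℕ)) (F E : Finset (Set ℕ)) : Prop where
  left : ↑F ⊆ I
  right : ↑E ⊆ I
  disj : Disjoint F E

/-- All `x` such that for some condition extending `(F, E)` all cells below it meet `x` in an
infinite set. -/
def Pos (I : Set (Set ℕ)) (F E : Finset (Set ℕ)) : Set (ℕ → Bool) :=
  {x | ∃ F' E', F ⊆ F' ∧ E ⊆ E' ∧ Cond I F' E' ∧ ∀ F'' E'', F' ⊆ F'' → E' ⊆ E'' →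
    Cond I F'' E'' → (Cell F'' E'' ∩ {n | x n = true}).Infinite}

theorem up_pos (I : Set (Set ℕ)) (F E : Finset (Set ℕ)) : Up (Pos I F E) := by
  rintro a b ⟨F', E', h1, h2, h3, h4⟩ hab
  exact ⟨F', E', h1, h2, h3, fun F'' E'' h5 h6 h7 => (h4 F'' E'' h5 h6 h7).mono
    fun n hn => ⟨hn.1, hab n hn.2⟩⟩

theorem tail_pos (I : Set (Set ℕ)) (F E : Finset (Set ℕ)) : Tail (Pos I F E) := by
  rintro a b ⟨F', E', h1, h2, h3, h4⟩ hab
  refine ⟨F', E', h1, h2, h3, fun F'' E'' h5 h6 h7 hfin => h4 F'' E'' h5 h6 h7 ?_⟩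
  obtain ⟨N, hN⟩ := eventually_atTop.1 hab
  refine (hfin.union (Set.finite_Iio N)).subset fun n hn => ?_
  by_cases h8 : n < N
  · exact Or.inr h8
  · refine Or.inl ⟨hn.1, ?_⟩
    have := hN n (not_lt.1 h8)
    have h9 : a n = true := hn.2
    change b n = true
    rw [← this, h9]

theorem cell_anti {F F' E E' : Finset (Set ℕ)} (h1 : F ⊆ F') (h2 : E ⊆ E') :
    Cell F' E' ⊆ Cell F E :=
  fun _ hn => ⟨fun A hA => hn.1 A (h1 hA), fun A hA => hn.2 A (h2 hA)⟩

theorem cell_union [DecidableEq (Set ℕ)] (F F' E E' : Finset (Set ℕ)) :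
    Cell (F ∪ F') (E ∪ E') = Cell F E ∩ Cell F' E' := by
  ext n
  simp only [Cell, Set.mem_ofPred_eq, Finset.mem_union, Set.mem_inter_iff]
  constructor
  · rintro ⟨h1, h2⟩
    exact ⟨⟨fun A hA => h1 A (Or.inl hA), fun A hA => h2 A (Or.inl hA)⟩,
      fun A hA => h1 A (Or.inr hA), fun A hA => h2 A (Or.inr hA)⟩
  · rintro ⟨⟨h1, h2⟩, h3, h4⟩
    exact ⟨fun A hA => hA.elim (h1 A) (h3 A), fun A hA => hA.elim (h2 A) (h4 A)⟩

/-- Compatibility of conditions. -/
def Compat (F E F' E' : Finset (Set ℕ)) : Prop := Disjoint F E' ∧ Disjoint F' E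

theorem Cond.union [DecidableEq (Set ℕ)] {I : Set (Set ℕ)} {F E F' E' : Finset (Set ℕ)}
    (h : Cond I F E) (h' : Cond I F' E') (hc : Compat F E F' E') :
    Cond I (F ∪ F') (E ∪ E') where
  left := by
    rw [Finset.coe_union]
    exact Set.union_subset h.left h'.left
  right := by
    rw [Finset.coe_union]
    exact Set.union_subset h.right h'.right
  disj := by
    rw [Finset.disjoint_union_left, Finset.disjoint_union_right, Finset.disjoint_union_right]
    exact ⟨⟨h.disj, hc.1⟩, hc.2, h'.disj⟩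

theorem cell_disjoint {F E F' E' : Finset (Set ℕ)} (hc : ¬ Compat F E F' E') {n : ℕ}
    (h1 : n ∈ Cell F E) (h2 : n ∈ Cell F' E') : False := by
  apply hc
  refine ⟨Finset.disjoint_left.2 fun A hA hA' => h2.2 A hA' (h1.1 A hA),
    Finset.disjoint_left.2 fun A hA hA' => h1.2 A hA' (h2.1 A hA)⟩

/-- Countably many colours such that conditions of the same colour are compatible. -/
theorem exists_colour (I : Set (Set ℕ)) : ∃ c : Finset (Set ℕ) → Finset (Set ℕ) → ℕ,
    ∀ F E F' E', Cond I F E → Cond I F' E' → c F E = c F' E' → Compat F E F' E' := by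
  classical
  -- the trace of a set on an initial segment
  let tr : ℕ → Set ℕ → Finset ℕ := fun m A => (Finset.range m).filter (· ∈ A)
  have hsep : ∀ A B : Set ℕ, A ≠ B → ∃ m, ∀ k ≥ m, tr k A ≠ tr k B := by
    intro A B hAB
    obtain ⟨n, hn⟩ : ∃ n, ¬ (n ∈ A ↔ n ∈ B) := by
      by_contra hc
      push Not at hc
      exact hAB (Set.ext hc)
    refine ⟨n + 1, fun k hk h => hn ?_⟩
    have h1 : n ∈ tr k A ↔ n ∈ tr k B := by rw [h]
    have h2 : n < k := by omega
    simpa [tr, h2] using h1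
  have hsep2 : ∀ F E : Finset (Set ℕ), Disjoint F E → ∃ m,
      Disjoint (F.image (tr m)) (E.image (tr m)) := by
    intro F E hFE
    have h1 : ∀ A B : Set ℕ, ∃ m, A ≠ B → ∀ k ≥ m, tr k A ≠ tr k B := by
      intro A B
      by_cases h : A = B
      · exact ⟨0, fun h' => absurd h h'⟩
      · obtain ⟨m, hm⟩ := hsep A B h
        exact ⟨m, fun _ => hm⟩
    choose m hm using h1
    refine ⟨F.sup fun A => E.sup fun B => m A B, ?_⟩
    rw [Finset.disjoint_left]
    intro T hT hT'
    obtain ⟨A, hA, rfl⟩ := Finset.mem_image.1 hT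
    obtain ⟨B, hB, hAB⟩ := Finset.mem_image.1 hT'
    have hne : A ≠ B := fun h => Finset.disjoint_left.1 hFE hA (h ▸ hB)
    refine hm A B hne _ ?_ hAB.symm
    exact (Finset.le_sup (f := fun B => m A B) hB).trans
      (Finset.le_sup (f := fun A => E.sup fun B => m A B) hA)
  choose! m hm using hsep2
  let c : Finset (Set ℕ) → Finset (Set ℕ) → ℕ × Finset (Finset ℕ) × Finset (Finset ℕ) :=
    fun F E => (m F E, F.image (tr (m F E)), E.image (tr (m F E)))
  refine ⟨fun F E => Encodable.encode (c F E), fun F E F' E' h h' hc => ?_⟩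
  have h1 : c F E = c F' E' := Encodable.encode_injective hc
  simp only [c, Prod.mk.injEq] at h1
  obtain ⟨h2, h3, h4⟩ := h1
  have h5 := hm F E h.disj
  rw [← h2] at h3 h4
  refine ⟨Finset.disjoint_left.2 fun A hA hA' => ?_, Finset.disjoint_left.2 fun A hA hA' => ?_⟩
  · refine Finset.disjoint_left.1 h5 (Finset.mem_image_of_mem _ hA) ?_
    rw [h4]
    exact Finset.mem_image_of_mem _ hA'
  · refine Finset.disjoint_left.1 h5 ?_ (Finset.mem_image_of_mem _ hA')
    rw [h3]
    exact Finset.mem_image_of_mem _ hA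

/-- A maximal independent family decides every set in some cell. -/
theorem decide_of_maximal {I : Set (Set ℕ)} (hI : Maximal Independent I) (X : Set ℕ) :
    ∃ F E, Cond I F E ∧ ((Cell F E ∩ X).Finite ∨ (Cell F E \ X).Finite) := by
  classical
  by_cases hX : X ∈ I
  · refine ⟨∅, {X}, ⟨by simp, by simpa using hX, by simp⟩, Or.inl ?_⟩
    have : Cell ∅ {X} ∩ X = ∅ := by
      ext n
      simp only [Cell, Set.mem_inter_iff, Set.mem_ofPred_eq, Finset.mem_singleton,
        Set.mem_empty_iff_false, iff_false, not_and]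
      rintro ⟨-, h⟩
      exact h X rfl
    rw [this]
    exact Set.finite_empty
  · have h1 : ¬ Independent (insert X I) := by
      intro h
      have := hI.le_of_ge h (Set.subset_insert X I)
      exact hX (this (Set.mem_insert X I))
    rw [Independent] at h1
    push Not at h1
    obtain ⟨F, E, hF, hE, hFE, hfin⟩ := h1
    have hF' : ↑(F.erase X) ⊆ I := by
      intro A hA
      rw [Finset.mem_coe, Finset.mem_erase] at hA
      rcases hF (Finset.mem_coe.2 hA.2) with h | h
      · exact absurd h hA.1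
      · exact h
    have hE' : ↑(E.erase X) ⊆ I := by
      intro A hA
      rw [Finset.mem_coe, Finset.mem_erase] at hA
      rcases hE (Finset.mem_coe.2 hA.2) with h | h
      · exact absurd h hA.1
      · exact h
    have hd : Disjoint (F.erase X) (E.erase X) :=
      Finset.disjoint_of_subset_left (Finset.erase_subset _ _)
        (Finset.disjoint_of_subset_right (Finset.erase_subset _ _) hFE)
    refine ⟨F.erase X, E.erase X, ⟨hF', hE', hd⟩, ?_⟩
    by_cases h2 : X ∈ F
    · left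
      have h3 : X ∉ E := Finset.disjoint_left.1 hFE h2
      refine hfin.subset fun n hn => ⟨fun A hA => ?_, fun A hA => ?_⟩
      · by_cases h4 : A = X
        · rw [h4]
          exact hn.2
        · exact hn.1.1 A (Finset.mem_erase.2 ⟨h4, hA⟩)
      · have h4 : A ≠ X := fun h => h3 (h ▸ hA)
        exact hn.1.2 A (Finset.mem_erase.2 ⟨h4, hA⟩)
    · right
      refine hfin.subset fun n hn => ⟨fun A hA => ?_, fun A hA => ?_⟩
      · have h4 : A ≠ X := fun h => h2 (h ▸ hA)
        exact hn.1.1 A (Finset.mem_erase.2 ⟨h4, hA⟩)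
      · by_cases h4 : A = X
        · rw [h4]
          exact hn.2
        · exact hn.1.2 A (Finset.mem_erase.2 ⟨h4, hA⟩)

/-- Below some condition every set is decided densely. -/
theorem dense_maximal {I : Set (Set ℕ)} (hI : Maximal Independent I) :
    ∃ F₀ E₀, Cond I F₀ E₀ ∧ ∀ (X : Set ℕ) (F E : Finset (Set ℕ)), F₀ ⊆ F → E₀ ⊆ E → Cond I F E →
      ∃ F' E', F ⊆ F' ∧ E ⊆ E' ∧ Cond I F' E' ∧
        ((Cell F' E' ∩ X).Finite ∨ (Cell F' E' \ X).Finite) := by
  classical
  by_contra hcon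
  push Not at hcon
  -- good conditions
  let good : Finset (Set ℕ) → Finset (Set ℕ) → Set ℕ → Prop := fun F E X =>
    Cond I F E ∧ ∀ F' E', F ⊆ F' → E ⊆ E' → Cond I F' E' →
      (Cell F' E' ∩ X).Infinite ∧ (Cell F' E' \ X).Infinite
  have hgood : ∀ F₀ E₀, Cond I F₀ E₀ → ∃ F E X, F₀ ⊆ F ∧ E₀ ⊆ E ∧ good F E X := by
    intro F₀ E₀ h
    obtain ⟨X, F, E, h1, h2, h3, h4⟩ := hcon F₀ E₀ h
    exact ⟨F, E, X, h1, h2, h3, h4⟩
  obtain ⟨c, hc⟩ := exists_colour I
  let P : ℕ → Prop := fun i => ∃ F E X, good F E X ∧ c F E = i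
  have hP : ∀ i, ∃ F E X, P i → good F E X ∧ c F E = i := by
    intro i
    by_cases h : P i
    · obtain ⟨F, E, X, h1⟩ := h
      exact ⟨F, E, X, fun _ => h1⟩
    · exact ⟨∅, ∅, ∅, fun h' => absurd h' h⟩
  choose F E X hFEX using hP
  let Y : Set ℕ := {n | ∃ i, P i ∧ n ∈ Cell (F i) (E i) ∧
    (∀ j < i, P j → n ∉ Cell (F j) (E j)) ∧ n ∈ X i}
  obtain ⟨Fr, Er, hr, hdec⟩ := decide_of_maximal hI Y
  -- a condition of the sequence compatible with `(Fr, Er)`
  have hex : ∃ i, P i ∧ Compat Fr Er (F i) (E i) := by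
    obtain ⟨F1, E1, X1, h1, h2, h3⟩ := hgood Fr Er hr
    refine ⟨c F1 E1, ⟨F1, E1, X1, h3, rfl⟩, ?_⟩
    have hPi : P (c F1 E1) := ⟨F1, E1, X1, h3, rfl⟩
    have h4 := hFEX _ hPi
    have h5 := hc F1 E1 _ _ h3.1 h4.1.1 h4.2.symm
    exact ⟨Finset.disjoint_of_subset_left h1 h5.1, Finset.disjoint_of_subset_right h2 h5.2⟩
  let i := Nat.find hex
  obtain ⟨hPi, hci⟩ : P i ∧ Compat Fr Er (F i) (E i) := Nat.find_spec hex
  have hmin : ∀ j < i, P j → ¬ Compat Fr Er (F j) (E j) := fun j hj hPj hcj =>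
    Nat.find_min hex hj ⟨hPj, hcj⟩
  have hgi := (hFEX i hPi).1
  have hq := hr.union hgi.1 hci
  have hcell := cell_union Fr (F i) Er (E i)
  have hmem : ∀ n ∈ Cell (Fr ∪ F i) (Er ∪ E i), n ∈ Y ↔ n ∈ X i := by
    intro n hn
    rw [hcell] at hn
    constructor
    · rintro ⟨j, hPj, h1, h2, h3⟩
      rcases lt_trichotomy j i with h | h | h
      · exact (cell_disjoint (hmin j h hPj) hn.1 h1).elim
      · exact h ▸ h3
      · exact absurd hn.2 (h2 i h hPi)
    · intro h
      exact ⟨i, hPi, hn.2, fun j hj hPj h1 => cell_disjoint (hmin j hj hPj) hn.1 h1, h⟩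
  obtain ⟨h1, h2⟩ := hgi.2 _ _ Finset.subset_union_right Finset.subset_union_right hq
  have hsub : Cell (Fr ∪ F i) (Er ∪ E i) ⊆ Cell Fr Er :=
    cell_anti Finset.subset_union_left Finset.subset_union_left
  rcases hdec with h | h
  · exact h1 (h.subset fun n hn => ⟨hsub hn.1, (hmem n hn.1).2 hn.2⟩)
  · exact h2 (h.subset fun n hn => ⟨hsub hn.1, fun h3 => hn.2 ((hmem n hn.1).1 h3)⟩)

/-- An independent family whose positive sets have the property of Baire is not maximal. -/
theorem not_maximal {I : Set (Set ℕ)} (hB : ∀ F E, Cond I F E → BaireMeasurableSet (Pos I F E)) :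
    ¬ Maximal Independent I := by
  classical
  intro hI
  have hind : Independent I := hI.prop
  obtain ⟨F₀, E₀, h₀, hdec⟩ := dense_maximal hI
  rcases Pool.Agent.Y576.TD.zero_one (hB F₀ E₀ h₀) (fun x y hxy hx => tail_pos I F₀ E₀ x y hx hxy)
    with h1 | h1
  · obtain ⟨π, hπ, hπV⟩ := exists_partition (up_pos I F₀ E₀) h1
    obtain ⟨A, hA, -, hAs⟩ := exists_family hπ (K := Set.univ) Set.infinite_univ
    obtain ⟨c, hc⟩ := exists_colour I
    have h2 : ∀ s, ∃ F E, Cond I F E ∧ (Cell F E \ A s 0).Finite := by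
      intro s
      obtain ⟨L, -, hL, hAL⟩ := hA s 0
      obtain ⟨F, E, h3, h4, h5, h6⟩ := hπV L hL (fun n => decide (n ∈ A s 0)) (by
        intro k hk n h3 h4
        rw [decide_eq_true_iff, hAL]
        exact ⟨k, hk, h3, h4⟩)
      obtain ⟨F', E', h7, h8, h9, h10⟩ := hdec (A s 0) F E h3 h4 h5
      refine ⟨F', E', h9, h10.resolve_left fun h11 => h6 F' E' h7 h8 h9 ?_⟩
      refine h11.subset fun n hn => ⟨hn.1, ?_⟩
      have := hn.2
      simpa using this
    choose F E hFE hfin using h2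
    obtain ⟨s, t, hst, hcc⟩ := exists_ne_eq fun s => c (F s) (E s)
    have h3 := (hFE s).union (hFE t) (hc _ _ _ _ (hFE s) (hFE t) hcc)
    obtain ⟨M, hM⟩ := hAs s t hst
    refine hind _ _ h3.left h3.right h3.disj ?_
    refine (((hfin s).union (hfin t)).union (Set.finite_Iio M)).subset fun n hn => ?_
    rw [cell_union] at hn
    by_cases h4 : n ∈ A s 0
    · by_cases h5 : n ∈ A t 0
      · right
        by_contra h6
        exact hM n (not_lt.1 h6) 0 0 h4 h5
      · exact Or.inl (Or.inr ⟨hn.2, h5⟩)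
    · exact Or.inl (Or.inl ⟨hn.1, h4⟩)
  · obtain ⟨x, hx1, hx2⟩ := exists_compl (W := (Pos I F₀ E₀)ᶜ) h1
    simp only [Pos, Set.mem_compl_iff, Set.mem_ofPred_eq] at hx1 hx2
    push Not at hx1 hx2
    obtain ⟨F1, E1, h2, h3, h4, h5⟩ := hx1 F₀ E₀ (Finset.Subset.refl _) (Finset.Subset.refl _) h₀
    obtain ⟨F2, E2, h6, h7, h8, h9⟩ := hx2 F1 E1 h2 h3 h4
    refine hind F2 E2 h8.left h8.right h8.disj ?_
    refine (h5.union h9).subset fun n hn => ?_
    by_cases h10 : x n = true
    · exact Or.inl ⟨cell_anti h6 h7 hn, h10⟩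
    · refine Or.inr ⟨hn, ?_⟩
      change (!(x n)) = true
      simpa using h10

end Pool.Agent.Helper50K9.TD
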