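import Pool.Agent.Helper50K9.TD.Cont

set_option autoImplicit false

/-!
Homomorphisms from products of countably many (nonassociative) rings to topological rings: from
the property of Baire of monotone sets to continuity on products.
-/

namespace Pool.Agent.Helper50K9.TD

open Set Filter Topology

/-- Countably many translates of every neighbourhood of `0` cover `S`. -/
def NarrowA (S : Type*) [AddGroup S] [TopologicalSpace S] : Prop :=
  ∀ U ∈ 𝓝 (0 : S), ∃ C : Set S, C.Countable ∧ ∀ a, ∃ c ∈ C, a - c ∈ U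

variable {R : ℕ → Type*} [∀ n, NonUnitalNonAssocRing (R n)] {S : Type*}
  [NonUnitalNonAssocRing S] [TopologicalSpace S]

/-- The bad pairs of elements of the product. -/
def BadProd (φ : (∀ n, R n) →ₙ+* S) (P Q : Set S) : Set (ℕ → Bool) :=
  {x | ∀ m, ∃ a b : ∀ n, R n, (∀ n, (n < m ∨ x n = false) → a n = 0 ∧ b n = 0) ∧
    φ b ∈ P ∧ φ (a * b) ∉ Q}

omit [TopologicalSpace S] in
theorem badProd_eq (φ : (∀ n, R n) →ₙ+* S) (P Q : Set S) :
    BadProd φ P Q = Bad (fun _ => 0) (fun _ => 0)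
      (fun a b : ∀ n, R n => φ b ∈ P ∧ φ (a * b) ∉ Q) := rfl

omit [TopologicalSpace S] in
theorem badProd_eq' (φ : (∀ n, R n) →ₙ+* S) (Q : Set S) :
    BadProd φ Set.univ Q = Bad (fun _ => 0) (fun _ => 0)
      (fun b a : ∀ n, R n => φ (a * b) ∉ Q) := by
  ext x
  constructor
  · intro h m
    obtain ⟨a, b, h1, -, h2⟩ := h m
    exact ⟨b, a, fun n hn => (h1 n hn).symm, h2⟩
  · intro h m
    obtain ⟨a, b, h1, h2⟩ := h m
    exact ⟨b, a, fun n hn => (h1 n hn).symm, Set.mem_univ _, h2⟩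

theorem colourA [IsTopologicalAddGroup S] (hS : NarrowA S) {P : Set S} (hP : P ∈ 𝓝 (0 : S)) :
    ∃ c : S → ℕ, ∀ a b, c a = c b → a - b ∈ P := by
  have h1 : ∀ᶠ p : S × S in 𝓝 0 ×ˢ 𝓝 0, p.1 - p.2 ∈ P := by
    have h2 : Tendsto (fun p : S × S => p.1 - p.2) (𝓝 0 ×ˢ 𝓝 0) (𝓝 0) := by
      have h3 : Continuous fun p : S × S => p.1 - p.2 := by fun_prop
      have h4 := h3.tendsto (0, 0)
      rw [nhds_prod_eq] at h4
      simpa using h4
    exact h2 hP
  obtain ⟨W, hW, hWP'⟩ := mem_prod_self_iff.1 h1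
  have hWP : ∀ a ∈ W, ∀ b ∈ W, a - b ∈ P := fun a ha b hb => hWP' (Set.mk_mem_prod ha hb)
  obtain ⟨C, hC, hCW⟩ := hS W hW
  choose σ hσC hσ using hCW
  have : Countable C := hC
  obtain ⟨f, hf⟩ := exists_injective_nat C
  refine ⟨fun a => f ⟨σ a, hσC a⟩, fun a b hab => ?_⟩
  have h2 : σ a = σ b := congrArg Subtype.val (hf hab)
  have h3 := hWP _ (hσ a) _ (hσ b)
  rw [h2] at h3
  have h4 : a - σ b - (b - σ b) = a - b := by abel
  rwa [h4] at h3

section main

variable [IsTopologicalRing S] {φ : (∀ n, R n) →ₙ+* S}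

theorem step_oneA (hS : NarrowA S)
    (hBP : ∀ P ∈ 𝓝 (0 : S), ∀ Q ∈ 𝓝 (0 : S), BaireMeasurableSet (BadProd φ P Q))
    {Q : Set S} (hQ : Q ∈ 𝓝 (0 : S)) :
    ∃ P ∈ 𝓝 (0 : S), ∀ᶠ x in residual (ℕ → Bool), x ∉ BadProd φ P Q := by
  have h1 : ∀ᶠ p : S × S in 𝓝 0 ×ˢ 𝓝 0, p.1 * p.2 ∈ Q := by
    have h2 : Tendsto (fun p : S × S => p.1 * p.2) (𝓝 0 ×ˢ 𝓝 0) (𝓝 0) := by
      have h3 : Continuous fun p : S × S => p.1 * p.2 := by fun_prop
      have h4 := h3.tendsto (0, 0)
      rw [nhds_prod_eq] at h4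
      simpa using h4
    exact h2 hQ
  obtain ⟨P, hP, hPQ'⟩ := mem_prod_self_iff.1 h1
  have hPQ : ∀ a ∈ P, ∀ b ∈ P, a * b ∈ Q := fun a ha b hb => hPQ' (Set.mk_mem_prod ha hb)
  obtain ⟨c, hc⟩ := colourA hS hP
  refine ⟨P, hP, ?_⟩
  rw [badProd_eq]
  refine good_of_key (W := Set.univ) (by rw [← badProd_eq]; exact hBP P hP Q hQ)
    (Eventually.of_forall fun _ => Set.mem_univ _) ?_ (c := fun g => c (φ g))
    fun x _ => ⟨0, fun a a' b _ hd hcc => ?_⟩
  · rintro a a' b hab ⟨h2, h3⟩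
    refine ⟨h2, ?_⟩
    have h4 : a' * b = a * b := by
      funext n
      rcases hab n with h5 | h5 <;> simp [h5]
    rwa [h4]
  · rintro ⟨h2, h3⟩
    apply h3
    have h4 : a * b = (a - a') * b := by
      funext n
      rcases hd n with h5 | h5 <;> simp [h5]
    rw [h4, map_mul, map_sub]
    exact hPQ _ (hc _ _ hcc) _ h2

theorem step_twoA (hS : NarrowA S)
    (hBP : ∀ P ∈ 𝓝 (0 : S), ∀ Q ∈ 𝓝 (0 : S), BaireMeasurableSet (BadProd φ P Q))
    {Q : Set S} (hQ : Q ∈ 𝓝 (0 : S)) :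
    ∀ᶠ x in residual (ℕ → Bool), x ∉ BadProd φ Set.univ Q := by
  obtain ⟨P, hP, hW⟩ := step_oneA hS hBP hQ
  obtain ⟨c, hc⟩ := colourA hS hP
  rw [badProd_eq']
  refine good_of_key (W := (BadProd φ P Q)ᶜ)
    (by rw [← badProd_eq']; exact hBP _ univ_mem Q hQ) hW ?_
    (c := fun g => c (φ g)) fun x hx => ?_
  · intro b b' a hab h3
    have h4 : a * b' = a * b := by
      funext n
      rcases hab n with h5 | h5 <;> simp [h5]
    rwa [h4]
  rw [Set.mem_compl_iff] at hx
  simp only [BadProd, Set.mem_ofPred_eq] at hx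
  push Not at hx
  obtain ⟨m, hm⟩ := hx
  refine ⟨m, fun b b' a hs hd hcc h3 => ?_⟩
  apply h3
  have h4 : a * b = a * (b - b') := by
    funext n
    rcases hd n with h5 | h5 <;> simp [h5]
  rw [h4]
  refine hm a (b - b') (fun n hn => ⟨(hs n hn).2.2, ?_⟩) ?_
  · have := hs n hn
    simp [this.1, this.2.1]
  · rw [map_sub]
    exact hc _ _ hcc

/-- Uniform continuity on products. -/
theorem small_products (hS : NarrowA S)
    (hBP : ∀ P ∈ 𝓝 (0 : S), ∀ Q ∈ 𝓝 (0 : S), BaireMeasurableSet (BadProd φ P Q))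
    {U : Set S} (hU : U ∈ 𝓝 (0 : S)) :
    ∃ N, ∀ a b : ∀ n, R n, (∀ n < N, a n = 0 ∧ b n = 0) → φ (a * b) ∈ U := by
  classical
  have hU' : ∀ᶠ p : S × S in 𝓝 0 ×ˢ 𝓝 0, p.1 + p.2 ∈ U := by
    have h2 : Tendsto (fun p : S × S => p.1 + p.2) (𝓝 0 ×ˢ 𝓝 0) (𝓝 0) := by
      have h3 : Continuous fun p : S × S => p.1 + p.2 := by fun_prop
      have h4 := h3.tendsto (0, 0)
      rw [nhds_prod_eq] at h4
      simpa using h4
    exact h2 hU
  obtain ⟨Q, hQ, hQU'⟩ := mem_prod_self_iff.1 hU'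
  have hQU : ∀ a ∈ Q, ∀ b ∈ Q, a + b ∈ U := fun a ha b hb => hQU' (Set.mk_mem_prod ha hb)
  have h1 := step_twoA hS hBP hQ
  rw [badProd_eq] at h1
  obtain ⟨x, N, hx1, hx2⟩ := exists_split h1
  refine ⟨N, fun g h hgh => ?_⟩
  let g1 : ∀ n, R n := fun n => if x n = true then g n else 0
  let g2 : ∀ n, R n := fun n => if x n = true then 0 else g n
  let h1 : ∀ n, R n := fun n => if x n = true then h n else 0
  let h2 : ∀ n, R n := fun n => if x n = true then 0 else h n
  have e1 : g * h = g1 * h1 + g2 * h2 := by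
    funext n
    by_cases hn : x n = true <;> simp [g1, g2, h1, h2, hn]
  rw [e1, map_add]
  refine hQU _ ?_ _ ?_
  · by_contra hc
    refine hx1 g1 h1 (fun n hn => ?_) ⟨Set.mem_univ _, hc⟩
    rcases hn with hn | hn
    · have := hgh n hn
      simp [g1, h1, this]
    · simp [g1, h1, hn]
  · by_contra hc
    refine hx2 g2 h2 (fun n hn => ?_) ⟨Set.mem_univ _, hc⟩
    rcases hn with hn | hn
    · have := hgh n hn
      simp [g2, h2, this]
    · simp [g2, h2, hn]

end main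

section additive

variable {E : ℕ → Type*} [∀ n, AddCommGroup (E n)] {F : Type*} [AddCommGroup F]

/-- The multiplicative version of a homomorphism of additive groups. -/
def mulVer (φ : (∀ n, E n) →+ F) : (∀ n, Multiplicative (E n)) →* Multiplicative F where
  toFun g := Multiplicative.ofAdd (φ fun n => Multiplicative.toAdd (g n))
  map_one' := by
    have : (fun n => Multiplicative.toAdd ((1 : ∀ n, Multiplicative (E n)) n)) =
        (0 : ∀ n, E n) := by
      funext n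
      simp
    rw [this, map_zero]
    rfl
  map_mul' g h := by
    have : (fun n => Multiplicative.toAdd ((g * h) n)) =
        (fun n => Multiplicative.toAdd (g n)) + fun n => Multiplicative.toAdd (h n) := by
      funext n
      simp
    rw [this, map_add]
    rfl

variable [TopologicalSpace F] [IsTopologicalAddGroup F]

theorem uniform_tailsA (φ : (∀ n, E n) →+ F)
    (h : ∀ a : ∀ n, E n, Tendsto (fun N => φ fun n => if n < N then 0 else a n) atTop (𝓝 0))
    {U : Set F} (hU : U ∈ 𝓝 (0 : F)) :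
    ∃ N, ∀ a : ∀ n, E n, (∀ n < N, a n = 0) → φ a ∈ U := by
  have hh : ∀ g, Tendsto (fun N => mulVer φ (tl N g)) atTop (𝓝 1) := by
    intro g
    have h1 := h fun n => Multiplicative.toAdd (g n)
    have h2 : (fun N => mulVer φ (tl N g)) =
        fun N => Multiplicative.ofAdd (φ fun n => if n < N then 0 else
          Multiplicative.toAdd (g n)) := by
      funext N
      change Multiplicative.ofAdd (φ _) = _
      congr 2
    rw [h2]
    exact h1
  obtain ⟨N, hN⟩ := uniform_tails hh hU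
  refine ⟨N, fun a ha => ?_⟩
  exact hN (fun n => Multiplicative.ofAdd (a n)) fun n hn => by
    rw [ha n hn]
    rfl

theorem continuous_of_tailsA (φ : (∀ n, E n) →+ F) [∀ n, TopologicalSpace (E n)]
    [∀ n, IsTopologicalAddGroup (E n)]
    (h : ∀ U ∈ 𝓝 (0 : F), ∃ N, ∀ a : ∀ n, E n, (∀ n < N, a n = 0) → φ a ∈ U)
    (hf : ∀ n, Continuous fun a : E n => φ (Pi.single n a)) : Continuous φ := by
  have h1 : Continuous (mulVer φ) := by
    refine continuous_of_tails (fun U hU => ?_) fun n => ?_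
    · obtain ⟨N, hN⟩ := h U hU
      exact ⟨N, fun g hg => hN (fun n => Multiplicative.toAdd (g n)) fun n hn => by
        rw [hg n hn]
        rfl⟩
    · exact hf n
  exact h1

end additive

end Pool.Agent.Helper50K9.TD
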